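import Mathlib
import Pool.Agent.Run7.h106.ToughMain

set_option autoImplicit false

namespace Pool.Agent.Results.MP_f1f65a_co.Toughness

/-- Every connected `k`-regular bipartite graph on at most `6k` vertices is `1`-tough: deleting a
nonempty set `S` of vertices leaves at most `|S|` connected components. -/
theorem result {V : Type*} [Fintype V] (G : SimpleGraph V) [DecidableRel G.Adj] (k : ℕ)
    (hconn : G.Connected) (hreg : G.IsRegularOfDegree k) (hbip : G.Colorable 2)
    (hn : Fintype.card V ≤ 6 * k) (S : Set V) (hS : S.Nonempty) :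
    Nat.card (G.induce Sᶜ).ConnectedComponent ≤ S.ncard := by
  classical
  obtain ⟨col⟩ := hbip
  by_cases hne : Nonempty (G.induce Sᶜ).ConnectedComponent
  swap
  · rw [not_nonempty_iff] at hne
    have : Nat.card (G.induce Sᶜ).ConnectedComponent = 0 := Nat.card_of_isEmpty
    omega
  haveI : Fintype (G.induce Sᶜ).ConnectedComponent := Fintype.ofFinite _
  rw [Nat.card_eq_fintype_card, Set.ncard_eq_toFinset_card']
  refine Run7.h106.Tough.tough_classes G k hconn hreg (fun v => decide (col v = 0)) ?_ hn
    S.toFinset (by simpa using hS)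
    (fun v => if h : v ∈ Sᶜ then (G.induce Sᶜ).connectedComponentMk ⟨v, h⟩
      else Classical.choice hne) ?_ ?_
  · intro u v huv h
    have h1 := col.valid huv
    have h2 : (col u = 0) ↔ (col v = 0) := by simpa using h
    omega
  · intro u v huv hu hv
    have hu' : u ∈ Sᶜ := by simpa using hu
    have hv' : v ∈ Sᶜ := by simpa using hv
    rw [dif_pos hu', dif_pos hv', SimpleGraph.ConnectedComponent.eq]
    exact SimpleGraph.Adj.reachable (by simpa using huv)
  · intro i
    obtain ⟨⟨v, hv⟩, rfl⟩ := i.exists_rep
    refine ⟨v, by simpa using hv, ?_⟩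
    rw [dif_pos hv]
    rfl

end Pool.Agent.Results.MP_f1f65a_co.Toughness
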